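import Pool.Agent.Helper80.Fisk.Main

/-!
# Fisk's conjecture on Toeplitz minors: the case `n ≤ 2 r`, and a sharp Newton type inequality

For a real polynomial `p = a_0 + ... + a_n x^n` with positive coefficients and only real roots let
`T_r(k) = det [a_{k-i+j}]_{i,j<r}` be its Toeplitz minor of order `r` at position `k`.

* `p^{(r)} = ∑ T_r(k) x^k` has only real negative roots whenever `n ≤ 2 r`;
* for all `n`, all `r ≥ 1` and `0 ≤ k ≤ n`, `T_r(k) > 0` and
  `(r+k)(r+n-k) T_r(k-1) T_r(k+1) ≤ k (n-k) T_r(k)^2`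
  (equality for `p = (1+x)^n`; it is stronger than Newton's inequalities for `p^{(r)}`).
-/

set_option autoImplicit false

namespace Pool.Agent.Results.MP_675d17_an.DegreeAtMostTwoR

open Polynomial

/-- The Toeplitz minor of order `r` at position `k` of the coefficient sequence of `p`
(coefficients with negative index, or index larger than the degree, are `0`). -/
noncomputable def toeplitzMinor (p : Polynomial ℝ) (r : ℕ) (k : ℤ) : ℝ :=
  Matrix.det (Matrix.of (fun i j : Fin r =>
    if 0 ≤ k - ((i : ℕ) : ℤ) + ((j : ℕ) : ℤ)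
    then p.coeff (k - ((i : ℕ) : ℤ) + ((j : ℕ) : ℤ)).toNat
    else 0))

theorem result :
    -- (A) Fisk's conjecture holds when the degree is at most `2 r`
    (∀ (p : Polynomial ℝ), (∀ k ≤ p.natDegree, 0 < p.coeff k) →
      p.roots.card = p.natDegree →
      ∀ r : ℕ, 1 ≤ r → p.natDegree ≤ 2 * r → ∀ q : Polynomial ℝ,
        q = ∑ k ∈ Finset.range (p.natDegree + 1),
              Polynomial.C (toeplitzMinor p r (k : ℤ)) * Polynomial.X ^ k →
        q.roots.card = q.natDegree ∧ ∀ x ∈ q.roots, x < 0) ∧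
    -- (B) for all degrees and all orders: positivity and a Newton type inequality
    (∀ (p : Polynomial ℝ), (∀ k ≤ p.natDegree, 0 < p.coeff k) →
      p.roots.card = p.natDegree →
      ∀ r k : ℕ, 1 ≤ r → k ≤ p.natDegree →
        0 < toeplitzMinor p r (k : ℤ) ∧
        ((r : ℝ) + k) * (r + (p.natDegree - k)) *
            (toeplitzMinor p r ((k : ℤ) - 1) * toeplitzMinor p r ((k : ℤ) + 1)) ≤
          k * (p.natDegree - k) * toeplitzMinor p r (k : ℤ) ^ 2) := by
  refine ⟨?_, ?_⟩
  · intro p hpos hr r hr1 hn q hq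
    exact Pool.Agent.Helper80.Fisk.fisk_le_two_mul p hpos hr r hr1 hn q hq
  · intro p hpos hr r k hr1 hk
    exact Pool.Agent.Helper80.Fisk.newton_ineq p hpos hr r k hr1 hk

end Pool.Agent.Results.MP_675d17_an.DegreeAtMostTwoR
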